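import Pool.Agent.Y949.DK.SV

/-! An upper bound sieve for systems of linear forms, only with large primes (adapted from Y949/DK/SV; helper289). -/

set_option autoImplicit false

namespace Pool.Agent.U289.GR

open Finset Filter Topology
open Pool.Agent.Y959.Sv (nu up_sieve)
open Pool.Agent.Helper923.HMertens (mertens_ratio)
open Pool.Agent.Y949.DK (Qf Qf_per nu_eq small_card prodP)

open Classical in
theorem step' (K z0 r : ℕ) (hup : ∀ y X : ℕ, 3 ≤ y → y ^ K ≤ X →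
    ∀ Q : ℕ → ℕ → Prop, (∀ p n, Q p n ↔ Q p (n % p)) →
    ∀ P : Finset ℕ, (∀ p ∈ P, p.Prime ∧ z0 < p ∧ p ≤ y ∧ nu Q p ≤ r) →
    (((Icc 1 X).filter (fun n : ℕ => ∀ p ∈ P, ¬ Q p n)).card : ℝ) ≤
      2 * (X * ∏ p ∈ P, (1 - (nu Q p : ℝ) / p)) + √(X : ℝ))
    {C1 : ℝ} (hC0 : 0 ≤ C1) (hC1 : ∀ a b : ℕ, 2 ≤ a → a ≤ b →
    |∑ p ∈ (Ioc a b).filter Nat.Prime, (1 : ℝ) / p
      - Real.log (Real.log b / Real.log a)| ≤ C1 / Real.log a)
    (N L y q : ℕ) (hq : q ≠ 0) (F : Finset (ℤ × ℤ)) (hF : ∀ f ∈ F, f.1 ≠ 0)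
    (hFA : ∀ p : ℕ, p.Prime → L < p → ¬ p ∣ q → ∀ f ∈ F, ¬ (p : ℤ) ∣ f.1)
    (hFg : ∀ p : ℕ, p.Prime → L < p → ¬ p ∣ q → ∀ f ∈ F, ∀ g ∈ F, f ≠ g → ¬ (p : ℤ) ∣ f.1 * g.2 - g.1 * f.2)
    (hFr : F.card = r)
    (hL : 2 ≤ L) (hrL : r ≤ L) (hzL : z0 ≤ L) (hLy : L ≤ y) (hy3 : 3 ≤ y) (hyK : y ^ K ≤ N) :
    (((Icc 1 N).filter (fun n : ℕ => ∀ f ∈ F, (f.1 * (n : ℤ) + f.2).toNat.Prime)).card : ℝ) ≤
      2 * (N * (Real.exp (r * (2 * C1 + ∑ p ∈ q.primeFactors, (1 : ℝ) / p)) *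
      (Real.log L / Real.log y) ^ r)) + √(N : ℝ) + r * (2 * y + 1) := by
  set S0 := (Ioc L y).filter Nat.Prime with hS0
  set E := S0.filter (fun p => p ∣ q) with hE
  have hES : E ⊆ S0 := filter_subset _ _
  set S := S0 \ E with hS
  have hSS : ∀ p ∈ S, p ∈ S0 ∧ ¬ p ∣ q := by
    intro p hp
    obtain ⟨hp1, hp2⟩ := Finset.mem_sdiff.1 hp
    exact ⟨hp1, fun hd => hp2 (mem_filter.2 ⟨hp1, hd⟩)⟩
  have hSp : ∀ p ∈ S, p.Prime := fun p hp => (mem_filter.1 (hSS p hp).1).2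
  have hEc : ∑ p ∈ E, (1 : ℝ) / p ≤ ∑ p ∈ q.primeFactors, (1 : ℝ) / p := by
    apply sum_le_sum_of_subset_of_nonneg
    · intro p hp
      rw [hE, mem_filter] at hp
      exact Nat.mem_primeFactors.2 ⟨(mem_filter.1 hp.1).2, hp.2, hq⟩
    · intro p _ _
      positivity
  have hprod := prodP hC0 hC1 r L y hL hrL hLy E hES _ hEc
  rw [← hS] at hprod
  -- the number of the classes
  have hnu : ∀ p ∈ S, nu (Qf F) p = r := by
    intro p hpS
    have h1 := mem_Ioc.1 (mem_filter.1 (hSS p hpS).1).1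
    rw [← hFr]
    exact nu_eq F (hSp p hpS) (hFA p (hSp p hpS) h1.1 (hSS p hpS).2) (hFg p (hSp p hpS) h1.1 (hSS p hpS).2)
  have key := hup y N hy3 hyK (Qf F) (Qf_per F) S (by
    intro p hpS
    have h1 := mem_Ioc.1 (mem_filter.1 (hSS p hpS).1).1
    exact ⟨hSp p hpS, by omega, h1.2, (hnu p hpS).le⟩)
  have hprod' : ∏ p ∈ S, (1 - (nu (Qf F) p : ℝ) / p) = ∏ p ∈ S, (1 - (r : ℝ) / p) := by
    apply prod_congr rfl
    intro p hp
    rw [hnu p hp]
  rw [hprod'] at key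
  have hsub : (Icc 1 N).filter (fun n : ℕ => ∀ f ∈ F, (f.1 * (n : ℤ) + f.2).toNat.Prime) ⊆
      (Icc 1 N).filter (fun n : ℕ => ∀ p ∈ S, ¬ Qf F p n) ∪
      F.biUnion (fun f => (Icc 1 N).filter (fun n : ℕ => |f.1 * (n : ℤ) + f.2| ≤ y)) := by
    intro n hn
    rw [mem_filter] at hn
    rw [mem_union, mem_biUnion]
    by_cases h : ∃ f ∈ F, |f.1 * (n : ℤ) + f.2| ≤ y
    · obtain ⟨f, hf, h⟩ := h
      exact Or.inr ⟨f, hf, mem_filter.2 ⟨hn.1, h⟩⟩
    · push Not at h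
      refine Or.inl (mem_filter.2 ⟨hn.1, ?_⟩)
      rintro p hpS ⟨f, hf, hd⟩
      have h1 := mem_Ioc.1 (mem_filter.1 (hSS p hpS).1).1
      have h2 := hn.2 f hf
      have h3 := h f hf
      have h4 : 0 < f.1 * (n : ℤ) + f.2 := by
        by_contra hcon
        push Not at hcon
        rw [Int.toNat_of_nonpos hcon] at h2
        exact Nat.not_prime_zero h2
      have h5 : ((f.1 * (n : ℤ) + f.2).toNat : ℤ) = f.1 * (n : ℤ) + f.2 := Int.toNat_of_nonneg h4.le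
      rw [← h5] at hd
      have h6 := (Nat.prime_dvd_prime_iff_eq (hSp p hpS) h2).1 (by exact_mod_cast hd)
      rw [abs_of_pos h4] at h3
      omega
  have hcard : (((Icc 1 N).filter (fun n : ℕ => ∀ f ∈ F, (f.1 * (n : ℤ) + f.2).toNat.Prime)).card : ℝ) ≤
      (((Icc 1 N).filter (fun n : ℕ => ∀ p ∈ S, ¬ Qf F p n)).card : ℝ) +
        ∑ f ∈ F, ((((Icc 1 N).filter (fun n : ℕ => |f.1 * (n : ℤ) + f.2| ≤ y)).card : ℕ) : ℝ) := by
    have h1 := (card_le_card hsub).trans (card_union_le _ _)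
    have h2 := h1.trans (add_le_add le_rfl card_biUnion_le)
    exact_mod_cast h2
  have hsum : ∑ f ∈ F, ((((Icc 1 N).filter (fun n : ℕ => |f.1 * (n : ℤ) + f.2| ≤ y)).card : ℕ) : ℝ) ≤
      r * (2 * y + 1) := by
    refine (sum_le_sum (fun f hf => small_card f.1 f.2 (hF f hf) N y)).trans ?_
    rw [sum_const, hFr, nsmul_eq_mul]
  have hfin : 2 * ((N : ℝ) * ∏ p ∈ S, (1 - (r : ℝ) / p)) ≤
      2 * (N * (Real.exp (r * (2 * C1 + ∑ p ∈ q.primeFactors, (1 : ℝ) / p)) * (Real.log L / Real.log y) ^ r)) := by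
    gcongr
  linarith

/-- the sum of `1 / p` over the prime factors -/
theorem exp_sum_le (q : ℕ) (hq : q ≠ 0) :
    Real.exp (∑ p ∈ q.primeFactors, (1 : ℝ) / p) ≤ (q : ℝ) / Nat.totient q := by
  have h1 : ((Nat.totient q : ℕ) : ℝ) = q * ∏ p ∈ q.primeFactors, (1 - (1 : ℝ) / p) := by
    have h := Nat.totient_eq_mul_prod_factors q
    have h2 : (((Nat.totient q : ℕ) : ℚ) : ℝ) = ((q * ∏ p ∈ q.primeFactors, (1 - (p : ℚ)⁻¹) : ℚ) : ℝ) := by rw [h]
    push_cast at h2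
    rw [h2]
    congr 1
    apply prod_congr rfl
    intro p _
    rw [one_div]
  have hq0 : (0 : ℝ) < q := by exact_mod_cast Nat.pos_of_ne_zero hq
  have ht : (0 : ℝ) < Nat.totient q := by exact_mod_cast Nat.totient_pos.2 (Nat.pos_of_ne_zero hq)
  rw [le_div_iff₀ ht, h1]
  have h2 : ∏ p ∈ q.primeFactors, (1 - (1 : ℝ) / p) ≤ Real.exp (-∑ p ∈ q.primeFactors, (1 : ℝ) / p) := by
    rw [← sum_neg_distrib, Real.exp_sum]
    apply Finset.prod_le_prod
    · intro p hp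
      have hp1 := (Nat.prime_of_mem_primeFactors hp).one_lt
      have : (1 : ℝ) / p ≤ 1 := by
        rw [div_le_one (by positivity)]
        exact_mod_cast hp1.le
      linarith
    · intro p _
      have := Real.add_one_le_exp (-((1 : ℝ) / p))
      linarith
  calc Real.exp (∑ p ∈ q.primeFactors, (1 : ℝ) / p) * (q * ∏ p ∈ q.primeFactors, (1 - (1 : ℝ) / p))
      ≤ Real.exp (∑ p ∈ q.primeFactors, (1 : ℝ) / p) * (q * Real.exp (-∑ p ∈ q.primeFactors, (1 : ℝ) / p)) := by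
        gcongr
    _ = q := by
        rw [mul_left_comm, ← Real.exp_add, add_neg_cancel, Real.exp_zero, mul_one]

/-- three forms `A n + c + 1`, `A n + c + 3`, `A n + c + 7` -/
theorem three_forms : ∃ (K L0 : ℕ) (C : ℝ), 1 ≤ K ∧ 3 ≤ L0 ∧ 0 < C ∧ ∀ L M : ℕ, L0 ≤ L → L ^ (2 * K) ≤ M →
    ∀ q : ℕ, q ≠ 0 → ∀ A : ℤ, A ≠ 0 → (∀ p : ℕ, p.Prime → L < p → ¬ p ∣ q → ¬ (p : ℤ) ∣ A) → ∀ c : ℤ,
    (((Icc 1 M).filter (fun n : ℕ => (A * (n : ℤ) + (c + 1)).toNat.Prime ∧ (A * (n : ℤ) + (c + 3)).toNat.Prime ∧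
      (A * (n : ℤ) + (c + 7)).toNat.Prime)).card : ℝ) ≤
      C * (((q : ℝ) / Nat.totient q) ^ 3 * (M * (Real.log L / Real.log M) ^ 3)) := by
  obtain ⟨K, z0, hK, hup⟩ := up_sieve 3
  obtain ⟨C1, hC0, hC1⟩ := mertens_ratio
  have hK0 : (1 : ℝ) ≤ K := by exact_mod_cast hK
  set B : ℝ := 2 * Real.exp ((3 : ℕ) * (2 * C1)) * (4 * K) ^ 3 with hB
  have hB0 : 0 ≤ B := by positivity
  refine ⟨K, z0 + 6, B + 10 * 216, hK, by omega, by linarith, fun L M hL hM q hq A hA hAp c => ?_⟩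
  have hqt : 1 ≤ (q : ℝ) / Nat.totient q := by
    rw [one_le_div (by exact_mod_cast Nat.totient_pos.2 (Nat.pos_of_ne_zero hq))]
    exact_mod_cast Nat.totient_le q
  have hL3 : (3 : ℝ) ≤ L := by exact_mod_cast (by omega : 3 ≤ L)
  have hLM : L ^ 2 ≤ M := le_trans (Nat.pow_le_pow_right (by omega) (by omega)) hM
  have hM9 : 9 ≤ M := by nlinarith
  have hM9r : (9 : ℝ) ≤ M := by exact_mod_cast hM9
  have hlogM : 0 < Real.log M := Real.log_pos (by linarith)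
  have hlogL : 1 ≤ Real.log L := by
    rw [Real.le_log_iff_exp_le (by linarith)]
    have := Real.exp_one_lt_d9
    linarith
  set κ : ℝ := 1 / (2 * K) with hκ
  have hκ0 : 0 < κ := by positivity
  set y : ℕ := ⌊(M : ℝ) ^ κ⌋₊ with hy
  have hyM : (y : ℝ) ≤ (M : ℝ) ^ κ := Nat.floor_le (by positivity)
  have hLy : L ≤ y := by
    rw [hy]
    apply Nat.le_floor
    have h1 : ((L : ℝ) ^ (2 * K)) ≤ M := by exact_mod_cast hM
    calc (L : ℝ) = ((L : ℝ) ^ (2 * K)) ^ κ := by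
          rw [← Real.rpow_natCast, ← Real.rpow_mul (by linarith), hκ]
          have e : ((2 * K : ℕ) : ℝ) * (1 / (2 * K)) = 1 := by
            push_cast
            field_simp
          rw [e, Real.rpow_one]
      _ ≤ (M : ℝ) ^ κ := Real.rpow_le_rpow (by positivity) h1 hκ0.le
  have hy3 : 3 ≤ y := by omega
  have hysq : (y : ℝ) ^ K ≤ √(M : ℝ) := by
    calc ((y : ℝ)) ^ K ≤ ((M : ℝ) ^ κ) ^ K := pow_le_pow_left₀ (Nat.cast_nonneg _) hyM K
      _ = √(M : ℝ) := by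
          rw [← Real.rpow_natCast, ← Real.rpow_mul (by linarith), hκ]
          have e : 1 / (2 * (K : ℝ)) * K = 1 / 2 := by field_simp
          rw [e, ← Real.sqrt_eq_rpow]
  have hsq1 : 1 ≤ √(M : ℝ) := by
    rw [Real.one_le_sqrt]
    linarith
  have hsqM : √(M : ℝ) * √(M : ℝ) = M := Real.mul_self_sqrt (by linarith)
  have hyK : y ^ K ≤ M := by
    have h6 : √(M : ℝ) ≤ M := by nlinarith
    exact_mod_cast hysq.trans h6
  have hysq1 : (y : ℝ) ≤ √(M : ℝ) := by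
    refine le_trans ?_ hysq
    exact_mod_cast Nat.le_self_pow (by omega) y
  have hlogy : Real.log M / (4 * K) ≤ Real.log y := by
    have hy3r : (3 : ℝ) ≤ y := by exact_mod_cast hy3
    have h1 : (M : ℝ) ^ κ ≤ (y : ℝ) ^ 2 := by
      have := Nat.lt_floor_add_one ((M : ℝ) ^ κ)
      rw [← hy] at this
      nlinarith
    have h2 := Real.log_le_log (by positivity) h1
    rw [Real.log_rpow (by linarith), Real.log_pow] at h2
    push_cast at h2
    rw [hκ] at h2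
    rw [div_le_iff₀ (by positivity)]
    have h3 : 1 / (2 * (K : ℝ)) * Real.log M * (2 * K) = Real.log M := by field_simp
    nlinarith
  set F : Finset (ℤ × ℤ) := {(A, c + 1), (A, c + 3), (A, c + 7)} with hF
  have hFc : F.card = 3 := by
    rw [hF, card_insert_of_notMem, card_insert_of_notMem, card_singleton]
    · simp
    · simp
  have hFm : ∀ f ∈ F, f.1 = A ∧ (f.2 = c + 1 ∨ f.2 = c + 3 ∨ f.2 = c + 7) := by
    intro f hf
    rw [hF] at hf
    simp only [mem_insert, mem_singleton] at hf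
    rcases hf with rfl | rfl | rfl <;> simp
  have key := step' K z0 3 hup hC0 hC1 M L y q hq F (fun f hf => by rw [(hFm f hf).1]; exact hA)
    (fun p hp hLp hpq f hf => by rw [(hFm f hf).1]; exact hAp p hp hLp hpq)
    (by
      intro p hp hLp hpq f hf g hg hne hd
      obtain ⟨h1, h2⟩ := hFm f hf
      obtain ⟨h3, h4⟩ := hFm g hg
      rw [h1, h3, ← mul_sub] at hd
      have hpi : Prime (p : ℤ) := Nat.prime_iff_prime_int.1 hp
      rcases hpi.dvd_or_dvd hd with h5 | h5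
      · exact hAp p hp hLp hpq h5
      · have h6 : g.2 - f.2 ≠ 0 := by
          intro h7
          apply hne
          apply Prod.ext
          · rw [h1, h3]
          · omega
        have h8 : |g.2 - f.2| ≤ 6 := by
          rw [abs_le]
          rcases h2 with h2 | h2 | h2 <;> rcases h4 with h4 | h4 | h4 <;> rw [h2, h4] <;> constructor <;> linarith
        have h9 := Int.le_of_dvd (abs_pos.2 h6) ((dvd_abs _ _).2 h5)
        omega)
    hFc (by omega) (by omega) (by omega) hLy hy3 hyK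
  have hcard : (((Icc 1 M).filter (fun n : ℕ => (A * (n : ℤ) + (c + 1)).toNat.Prime ∧ (A * (n : ℤ) + (c + 3)).toNat.Prime ∧
      (A * (n : ℤ) + (c + 7)).toNat.Prime)).card : ℝ) ≤
      (((Icc 1 M).filter (fun n : ℕ => ∀ f ∈ F, (f.1 * (n : ℤ) + f.2).toNat.Prime)).card : ℝ) := by
    rw [Nat.cast_le]
    apply card_le_card
    intro n hn
    rw [mem_filter] at hn ⊢
    refine ⟨hn.1, fun f hf => ?_⟩
    rw [hF] at hf
    simp only [mem_insert, mem_singleton] at hf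
    rcases hf with rfl | rfl | rfl
    · exact hn.2.1
    · exact hn.2.2.1
    · exact hn.2.2.2
  refine hcard.trans (key.trans ?_)
  have hYK : 0 < Real.log M / (4 * K) := by positivity
  have ht : Real.log L / Real.log y ≤ 4 * K * (Real.log L / Real.log M) := by
    calc Real.log L / Real.log y ≤ Real.log L / (Real.log M / (4 * K)) :=
          div_le_div_of_nonneg_left (by linarith) hYK hlogy
      _ = _ := by field_simp
  have ht0 : 0 ≤ Real.log L / Real.log y := div_nonneg (by linarith) (hYK.le.trans hlogy)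
  have hexp : Real.exp ((3 : ℕ) * (2 * C1 + ∑ p ∈ q.primeFactors, (1 : ℝ) / p)) ≤
      Real.exp ((3 : ℕ) * (2 * C1)) * ((q : ℝ) / Nat.totient q) ^ 3 := by
    rw [mul_add, Real.exp_add]
    apply mul_le_mul_of_nonneg_left _ (Real.exp_pos _).le
    rw [Real.exp_nat_mul]
    exact pow_le_pow_left₀ (Real.exp_pos _).le (exp_sum_le q hq) 3
  set Φ : ℝ := (q : ℝ) / Nat.totient q with hΦ
  have k1 : 2 * ((M : ℝ) * (Real.exp ((3 : ℕ) * (2 * C1 + ∑ p ∈ q.primeFactors, (1 : ℝ) / p)) *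
      (Real.log L / Real.log y) ^ 3)) ≤ B * (Φ ^ 3 * (M * (Real.log L / Real.log M) ^ 3)) := by
    calc 2 * ((M : ℝ) * (Real.exp ((3 : ℕ) * (2 * C1 + ∑ p ∈ q.primeFactors, (1 : ℝ) / p)) *
          (Real.log L / Real.log y) ^ 3))
        ≤ 2 * ((M : ℝ) * ((Real.exp ((3 : ℕ) * (2 * C1)) * Φ ^ 3) * (4 * K * (Real.log L / Real.log M)) ^ 3)) := by
          gcongr
      _ = B * (Φ ^ 3 * (M * (Real.log L / Real.log M) ^ 3)) := by
          rw [hB]
          ring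
  have h216 : √(M : ℝ) * Real.log M ^ 3 ≤ 216 * M := by
    have h1 : Real.log M ≤ 6 * (M : ℝ) ^ (1 / 6 : ℝ) := by
      have h2 := Real.log_le_rpow_div (x := (M : ℝ)) (by linarith) (ε := 1 / 6) (by norm_num)
      have e : (M : ℝ) ^ (1 / 6 : ℝ) / (1 / 6) = 6 * (M : ℝ) ^ (1 / 6 : ℝ) := by ring
      rw [e] at h2
      exact h2
    have h2 : Real.log M ^ 3 ≤ 216 * √(M : ℝ) := by
      calc Real.log M ^ 3 ≤ (6 * (M : ℝ) ^ (1 / 6 : ℝ)) ^ 3 := pow_le_pow_left₀ hlogM.le h1 3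
        _ = 216 * ((M : ℝ) ^ (1 / 6 : ℝ)) ^ 3 := by ring
        _ = 216 * √(M : ℝ) := by
          rw [← Real.rpow_natCast, ← Real.rpow_mul (by linarith), Real.sqrt_eq_rpow]
          norm_num
    calc √(M : ℝ) * Real.log M ^ 3 ≤ √(M : ℝ) * (216 * √(M : ℝ)) := by gcongr
      _ = 216 * M := by rw [mul_left_comm, hsqM]
  have k2 : √(M : ℝ) ≤ 216 * (M * (Real.log L / Real.log M) ^ 3) := by
    have h1 : √(M : ℝ) ≤ 216 * (M * (1 / Real.log M) ^ 3) := by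
      rw [one_div, inv_pow, ← div_eq_mul_inv, ← mul_div_assoc, le_div_iff₀ (by positivity)]
      exact h216
    refine h1.trans ?_
    gcongr
  have k3 : √(M : ℝ) + (3 : ℕ) * (2 * (y : ℝ) + 1) ≤ 10 * √(M : ℝ) := by
    push_cast
    linarith
  have k4 : M * (Real.log L / Real.log M) ^ 3 ≤ Φ ^ 3 * (M * (Real.log L / Real.log M) ^ 3) := by
    have h1 : 0 ≤ (M : ℝ) * (Real.log L / Real.log M) ^ 3 := by positivity
    have h2 : 1 ≤ Φ ^ 3 := one_le_pow₀ hqt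
    nlinarith
  calc 2 * ((M : ℝ) * (Real.exp ((3 : ℕ) * (2 * C1 + ∑ p ∈ q.primeFactors, (1 : ℝ) / p)) *
        (Real.log L / Real.log y) ^ 3)) + √(M : ℝ) + (3 : ℕ) * (2 * (y : ℝ) + 1)
      ≤ B * (Φ ^ 3 * (M * (Real.log L / Real.log M) ^ 3)) + 10 * (216 * (Φ ^ 3 * (M * (Real.log L / Real.log M) ^ 3))) := by
        linarith
    _ = (B + 10 * 216) * (Φ ^ 3 * (M * (Real.log L / Real.log M) ^ 3)) := by ring

end Pool.Agent.U289.GR
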