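import Pool.Agent.U289.GR.A
import Pool.Agent.U289.GR.B

/-! The gcd recursion for prime triples: small defects, in all intervals (helper289). -/

set_option autoImplicit false

namespace Pool.Agent.U289.GR

open Finset Pool.Agent.R105.GD Pool.Agent.Results.MP_3f8e47_nt.LongLife

open Classical in
/-- one residue class -/
lemma fiber (Z Y H A r : ℕ) (hH : 1 ≤ H) (hA : 0 < A) (hdiv : ∀ k, 2 ≤ k → k ≤ 6 * H → (k + b k) ∣ A) :
    ((Ioc Z (Z + Y)).filter (fun N : ℕ => (2100 + 7 * H ≤ N ∧ N ≤ ff N + H) ∧ N % A = r)).card ≤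
    ((Icc 1 (Y / A + 2)).filter (fun n : ℕ =>
      ((A : ℤ) * (n : ℤ) + (((A : ℤ) * (Z / A : ℕ) - A + r - 5 - loss r (6 * H)) + 1)).toNat.Prime ∧
      ((A : ℤ) * (n : ℤ) + (((A : ℤ) * (Z / A : ℕ) - A + r - 5 - loss r (6 * H)) + 3)).toNat.Prime ∧
      ((A : ℤ) * (n : ℤ) + (((A : ℤ) * (Z / A : ℕ) - A + r - 5 - loss r (6 * H)) + 7)).toNat.Prime)).card := by
  apply card_le_card_of_injOn (fun N : ℕ => N / A + 1 - Z / A)
  · intro N hN
    rw [mem_coe, mem_filter, mem_Ioc] at hN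
    obtain ⟨⟨hN1, hN2⟩, ⟨hN3, hN4⟩, hN5⟩ := hN
    have hm1 : Z / A ≤ N / A := Nat.div_le_div_right hN1.le
    have hm2 : N / A < Z / A + Y / A + 2 := by
      rw [Nat.div_lt_iff_lt_mul hA]
      have h1 := Nat.div_add_mod Z A
      have h2 := Nat.mod_lt Z hA
      have h3 := Nat.div_add_mod Y A
      have h4 := Nat.mod_lt Y hA
      have e : (Z / A + Y / A + 2) * A = A * (Z / A) + A * (Y / A) + A + A := by ring
      rw [e]
      omega
    obtain ⟨hf, hp⟩ := zero_of_small N H hH hN3 hN4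
    have hNe : (N : ℤ) = A * ((N / A : ℕ) : ℤ) + r := by
      have := Nat.div_add_mod N A
      rw [hN5] at this
      exact_mod_cast this.symm
    have hper : loss N (6 * H) = loss r (6 * H) := by
      apply loss_period A N r (6 * H) (by omega) hdiv
      rw [hNe]
      exact ⟨((N / A : ℕ) : ℤ), by ring⟩
    have hn : ((N / A + 1 - Z / A : ℕ) : ℤ) = ((N / A : ℕ) : ℤ) + 1 - ((Z / A : ℕ) : ℤ) := by
      have : Z / A ≤ N / A + 1 := by omega
      push_cast [Nat.cast_sub this]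
      ring
    have key : (A : ℤ) * ((N / A + 1 - Z / A : ℕ) : ℤ) + ((A : ℤ) * (Z / A : ℕ) - A + r - 5 - loss r (6 * H)) =
        ff N := by
      rw [hn, hf, hper, hNe]
      ring
    rw [mem_coe, mem_filter, mem_Icc]
    refine ⟨⟨Nat.le_sub_of_add_le (by linarith), Nat.sub_le_iff_le_add.2 (by linarith)⟩, ?_, ?_, ?_⟩
    · rw [← add_assoc, key]
      have : ((ff N : ℤ) + 1).toNat = ff N + 1 := by omega
      rw [this]
      exact hp.1
    · rw [← add_assoc, key]
      have : ((ff N : ℤ) + 3).toNat = ff N + 3 := by omega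
      rw [this]
      exact hp.2.1
    · rw [← add_assoc, key]
      have : ((ff N : ℤ) + 7).toNat = ff N + 7 := by omega
      rw [this]
      exact hp.2.2
  · intro N hN N' hN' h
    rw [mem_coe, mem_filter, mem_Ioc] at hN hN'
    have hm1 : Z / A ≤ N / A := Nat.div_le_div_right hN.1.1.le
    have hm2 : Z / A ≤ N' / A := Nat.div_le_div_right hN'.1.1.le
    simp only at h
    have h1 := Nat.div_add_mod N A
    have h2 := Nat.div_add_mod N' A
    rw [hN.2.2] at h1
    rw [hN'.2.2] at h2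
    have h3 : N / A = N' / A := by omega
    rw [← h1, ← h2, h3]

theorem lcmUpto_le (n : ℕ) : (Nat.lcmUpto n : ℝ) ≤ Real.exp (6 * n) := by
  have h1 := Chebyshev.psi_eq_log_lcmUpto n
  have h2 : Chebyshev.psi (n : ℝ) ≤ (Real.log 4 + 4) * n :=
    Chebyshev.psi_le_const_mul_self (Nat.cast_nonneg n)
  have hpos : (0 : ℝ) < (Nat.lcmUpto n : ℝ) := by exact_mod_cast Nat.lcmUpto_pos n
  rw [← Real.log_le_iff_le_exp hpos, ← h1]
  refine h2.trans ?_
  have h3 : Real.log 4 ≤ 2 := by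
    have : Real.log 4 = 2 * Real.log 2 := by
      rw [show (4 : ℝ) = 2 ^ 2 by norm_num, Real.log_pow]
      push_cast
      ring
    rw [this]
    have := Real.log_two_lt_d9
    linarith
  have h4 : (0 : ℝ) ≤ n := Nat.cast_nonneg n
  nlinarith

open Classical in
/-- the residue classes modulo `A q` in a class modulo `q` -/
lemma card_classes (A q a : ℕ) (hq : 0 < q) :
    (((range (A * q)).filter (fun r => r % q = a % q)).card) ≤ A := by
  have h : (range (A * q)).filter (fun r => r % q = a % q) ⊆ (range A).image (fun i => q * i + a % q) := by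
    intro r hr
    rw [mem_filter, mem_range] at hr
    rw [mem_image]
    refine ⟨r / q, ?_, ?_⟩
    · rw [mem_range, Nat.div_lt_iff_lt_mul hq]
      exact hr.1
    · rw [← hr.2]
      exact Nat.div_add_mod r q
  refine (card_le_card h).trans (card_image_le.trans ?_)
  rw [card_range]

open Classical in
/-- **The theorem.** -/
theorem count_small : ∃ C c : ℝ, 0 < C ∧ 0 < c ∧ ∀ Z Y H q a : ℕ, 1 ≤ q → 2 ≤ H →
    (H : ℝ) ≤ c * Real.log ((Y : ℝ) / q) →
    (((Ioc Z (Z + Y)).filter (fun N : ℕ => N % q = a % q ∧ N ≤ ff N + H)).card : ℝ) ≤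
      C * (((q : ℝ) / Nat.totient q) ^ 3 * ((Y : ℝ) / q * (Real.log H / Real.log ((Y : ℝ) / q)) ^ 3)) := by
  obtain ⟨K, L0, C3, hK, hL0, hC3, h3⟩ := three_forms
  set W : ℝ := (6 + 2 * K) * (L0 + 9) with hW
  have hK1 : (1 : ℝ) ≤ K := by exact_mod_cast hK
  have hL03 : (3 : ℝ) ≤ L0 := by exact_mod_cast hL0
  have hW0 : 96 ≤ W := by
    rw [hW]
    nlinarith
  set C4 : ℝ := 1 + Real.log (L0 + 9) / Real.log 2 with hC4
  have hl2 : 0 < Real.log 2 := Real.log_pos (by norm_num)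
  have hlL : 0 ≤ Real.log (L0 + 9 : ℝ) := Real.log_nonneg (by linarith)
  have hC40 : 0 < C4 := by
    have : 0 ≤ Real.log (L0 + 9 : ℝ) / Real.log 2 := by positivity
    linarith
  refine ⟨24 * C3 * C4 ^ 3 + 2108 * 256 * 4, 1 / (4 * W), by positivity, by positivity, fun Z Y' H q a hq hH hHY => ?_⟩
  have hqr : (1 : ℝ) ≤ q := by exact_mod_cast hq
  set Y : ℝ := (Y' : ℝ) / q with hYdef
  set Φ : ℝ := (q : ℝ) / Nat.totient q with hΦ
  have hΦ1 : 1 ≤ Φ := by
    rw [hΦ, one_le_div (by exact_mod_cast Nat.totient_pos.2 hq)]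
    exact_mod_cast Nat.totient_le q
  have hΦ3 : 1 ≤ Φ ^ 3 := one_le_pow₀ hΦ1
  have hH2 : (2 : ℝ) ≤ H := by exact_mod_cast hH
  have hWH : W * H ≤ Real.log Y / 4 := by
    have : 1 / (4 * W) * Real.log Y = Real.log Y / 4 / W := by
      field_simp
    rw [this, le_div_iff₀ (by linarith)] at hHY
    linarith
  have hlY : 192 * 4 ≤ Real.log Y := by nlinarith
  have hYnn : 0 ≤ Y := by positivity
  have hY0 : (0 : ℝ) < Y := by
    by_contra hcon
    have : Y = 0 := le_antisymm (not_lt.1 hcon) hYnn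
    rw [this, Real.log_zero] at hlY
    linarith
  have hlogY : 0 < Real.log Y := by linarith
  have hHlog : (H : ℝ) ≤ Real.log Y := by nlinarith
  have hY1 : (1 : ℝ) ≤ Y := by
    by_contra hcon
    push Not at hcon
    have := Real.log_neg hY0 hcon
    linarith
  set n0 : ℕ := 6 * H + 6 with hn0
  set A : ℕ := Nat.lcmUpto n0 with hA
  set L : ℕ := L0 + 6 * H + 6 with hL
  have hApos : 0 < A := Nat.lcmUpto_pos n0
  have hAr : (0 : ℝ) < A := by exact_mod_cast hApos
  have hBpos : 0 < A * q := Nat.mul_pos hApos hq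
  have hBr : (0 : ℝ) < ((A * q : ℕ) : ℝ) := by exact_mod_cast hBpos
  have hYq : (Y' : ℝ) = Y * q := by
    rw [hYdef]
    field_simp
  have hLe : (L : ℝ) ≤ (L0 + 9) * H := by
    rw [hL]
    push_cast
    nlinarith
  have hdiv : ∀ k, 2 ≤ k → k ≤ 6 * H → (k + b k) ∣ A * q := by
    intro k hk1 hk2
    apply dvd_mul_of_dvd_left
    rw [hA]
    unfold Nat.lcmUpto
    have hb := b_cases k
    exact Finset.dvd_lcm (f := id) (Finset.mem_Icc.2 ⟨by omega, by omega⟩)
  -- sizes
  have hAexp : (A : ℝ) ≤ Real.exp (6 * ((L0 + 9) * H)) := by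
    refine (lcmUpto_le n0).trans (Real.exp_le_exp.2 ?_)
    rw [hn0]
    push_cast
    nlinarith
  have hLexp : (L : ℝ) ^ (2 * K) ≤ Real.exp (2 * K * ((L0 + 9) * H)) := by
    have h1 : (L : ℝ) ≤ Real.exp ((L0 + 9) * H) := by
      refine hLe.trans ?_
      have := Real.add_one_le_exp (((L0 : ℝ) + 9) * H)
      linarith
    calc (L : ℝ) ^ (2 * K) ≤ Real.exp ((L0 + 9) * H) ^ (2 * K) := pow_le_pow_left₀ (Nat.cast_nonneg _) h1 _
      _ = Real.exp (2 * K * ((L0 + 9) * H)) := by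
          rw [← Real.exp_nat_mul]
          push_cast
          ring_nf
  have hAL : (A : ℝ) * (L : ℝ) ^ (2 * K) ≤ Y := by
    calc (A : ℝ) * (L : ℝ) ^ (2 * K) ≤ Real.exp (6 * ((L0 + 9) * H)) * Real.exp (2 * K * ((L0 + 9) * H)) :=
          mul_le_mul hAexp hLexp (by positivity) (Real.exp_pos _).le
      _ = Real.exp (W * H) := by
          rw [← Real.exp_add, hW]
          ring_nf
      _ ≤ Real.exp (Real.log Y) := Real.exp_le_exp.2 (by linarith)
      _ = Y := Real.exp_log hY0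
  have hA2 : (A : ℝ) ≤ √Y := by
    calc (A : ℝ) ≤ Real.exp (6 * ((L0 + 9) * H)) := hAexp
      _ ≤ Real.exp (Real.log Y / 2) := by
          apply Real.exp_le_exp.2
          have : 6 * (((L0 : ℝ) + 9) * H) ≤ W * H := by
            rw [hW]
            have : 0 ≤ 2 * (K : ℝ) * ((L0 + 9) * H) := by positivity
            nlinarith
          linarith
      _ = √Y := by
          rw [Real.sqrt_eq_rpow, Real.rpow_def_of_pos hY0]
          ring_nf
  set M : ℕ := Y' / (A * q) + 2 with hM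
  have hML : L ^ (2 * K) ≤ M := by
    have h1 : (((A * q) * L ^ (2 * K) : ℕ) : ℝ) ≤ Y' := by
      push_cast
      rw [hYq]
      calc (A : ℝ) * q * (L : ℝ) ^ (2 * K) = (A : ℝ) * (L : ℝ) ^ (2 * K) * q := by ring
        _ ≤ Y * q := by gcongr
    have h1' : (A * q) * L ^ (2 * K) ≤ Y' := by exact_mod_cast h1
    have h2 : L ^ (2 * K) ≤ Y' / (A * q) := by
      rw [Nat.le_div_iff_mul_le hBpos]
      linarith
    omega
  have hsq : √Y * √Y = Y := Real.mul_self_sqrt hY0.le
  have hMY : √Y ≤ M := by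
    have h1 : Y / A ≤ M := by
      have h5 : Y' ≤ M * (A * q) := by
        have h2 := Nat.div_add_mod Y' (A * q)
        have h4 := Nat.mod_lt Y' hBpos
        rw [hM]
        have e : (Y' / (A * q) + 2) * (A * q) = (A * q) * (Y' / (A * q)) + A * q + A * q := by ring
        rw [e]
        omega
      have h6 : (Y' : ℝ) ≤ M * (A * q) := by exact_mod_cast h5
      rw [hYq] at h6
      rw [div_le_iff₀ hAr]
      have h7 : Y * q ≤ (M * A) * q := by linarith
      exact le_of_mul_le_mul_right h7 (by linarith)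
    refine le_trans ?_ h1
    rw [le_div_iff₀ hAr]
    calc √Y * A ≤ √Y * √Y := by gcongr
      _ = Y := hsq
  have hMr : (A : ℝ) * M ≤ 3 * Y := by
    have h1 : (A * q) * (Y' / (A * q)) ≤ Y' := Nat.mul_div_le Y' (A * q)
    have h2 : (A : ℝ) ≤ Y := by
      have : √Y ≤ Y := by
        have h6 : 1 ≤ √Y := by
          rw [Real.one_le_sqrt]
          exact hY1
        nlinarith
      linarith
    have h4 : (A : ℝ) * q * ((Y' / (A * q) : ℕ) : ℝ) ≤ Y * q := by
      rw [← hYq]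
      exact_mod_cast h1
    have h5 : (A : ℝ) * ((Y' / (A * q) : ℕ) : ℝ) ≤ Y := by
      have h7 : (A : ℝ) * ((Y' / (A * q) : ℕ) : ℝ) * q ≤ Y * q := by linarith
      exact le_of_mul_le_mul_right h7 (by linarith)
    rw [hM]
    push_cast at h5 ⊢
    linarith
  have hlM : Real.log Y / 2 ≤ Real.log M := by
    have h1 : 0 < √Y := Real.sqrt_pos.2 hY0
    have h2 := Real.log_le_log h1 hMY
    rw [Real.log_sqrt hY0.le] at h2
    exact h2
  have hlL1 : Real.log L ≤ C4 * Real.log H := by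
    have h1 : Real.log L ≤ Real.log ((L0 + 9) * H) :=
      Real.log_le_log (by exact_mod_cast (by omega : 0 < L)) hLe
    rw [Real.log_mul (by linarith) (by linarith)] at h1
    have h2 : Real.log 2 ≤ Real.log H := Real.log_le_log (by norm_num) hH2
    have h4 : Real.log (L0 + 9 : ℝ) ≤ Real.log (L0 + 9 : ℝ) / Real.log 2 * Real.log H := by
      rw [div_mul_eq_mul_div, le_div_iff₀ hl2]
      exact mul_le_mul_of_nonneg_left h2 hlL
    rw [hC4]
    linarith
  have hlL0 : 0 ≤ Real.log L := Real.log_natCast_nonneg L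
  have hlH : 0 < Real.log H := Real.log_pos (by linarith)
  -- one class
  have hclass : ∀ r : ℕ, ((((Ioc Z (Z + Y')).filter
      (fun N : ℕ => (2100 + 7 * H ≤ N ∧ N ≤ ff N + H) ∧ N % (A * q) = r)).card : ℕ) : ℝ) ≤
      8 * C3 * C4 ^ 3 * (Φ ^ 3 * (M * (Real.log H / Real.log Y) ^ 3)) := by
    intro r
    have h1 := fiber Z Y' H (A * q) r (by omega) hBpos hdiv
    have h2 := h3 L M (by omega) hML q (by omega) ((A * q : ℕ) : ℤ) (by exact_mod_cast hBpos.ne') (by
      intro p hp hLp hpq hd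
      have hd' : p ∣ A * q := Int.natCast_dvd_natCast.1 hd
      have hd'' : p ∣ A := (hp.dvd_mul.1 hd').resolve_right hpq
      have h5 : p ∈ A.primeFactors := Nat.mem_primeFactors.2 ⟨hp, hd'', hApos.ne'⟩
      rw [hA, Nat.primeFactors_lcmUpto] at h5
      have h6 := (Nat.mem_primesLE.1 h5).1
      omega) (((A * q : ℕ) : ℤ) * (Z / (A * q) : ℕ) - (A * q : ℕ) + r - 5 - loss r (6 * H))
    have h4 : ((((Ioc Z (Z + Y')).filter
      (fun N : ℕ => (2100 + 7 * H ≤ N ∧ N ≤ ff N + H) ∧ N % (A * q) = r)).card : ℕ) : ℝ) ≤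
        C3 * (Φ ^ 3 * (M * (Real.log L / Real.log M) ^ 3)) := le_trans (by exact_mod_cast h1) h2
    refine h4.trans ?_
    have h5 : Real.log L / Real.log M ≤ 2 * C4 * (Real.log H / Real.log Y) := by
      calc Real.log L / Real.log M ≤ (C4 * Real.log H) / (Real.log Y / 2) :=
            div_le_div₀ (by positivity) hlL1 (by positivity) hlM
        _ = 2 * C4 * (Real.log H / Real.log Y) := by field_simp
    have h6 : 0 ≤ Real.log L / Real.log M := div_nonneg hlL0 (by linarith)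
    calc C3 * (Φ ^ 3 * (M * (Real.log L / Real.log M) ^ 3))
        ≤ C3 * (Φ ^ 3 * (M * (2 * C4 * (Real.log H / Real.log Y)) ^ 3)) := by gcongr
      _ = 8 * C3 * C4 ^ 3 * (Φ ^ 3 * (M * (Real.log H / Real.log Y) ^ 3)) := by ring
  -- all classes
  have hsub : (Ioc Z (Z + Y')).filter (fun N : ℕ => N % q = a % q ∧ N ≤ ff N + H) ⊆
      range (2100 + 7 * H) ∪
        (Ioc Z (Z + Y')).filter (fun N : ℕ => N % q = a % q ∧ 2100 + 7 * H ≤ N ∧ N ≤ ff N + H) := by
    intro N hN
    rw [mem_filter] at hN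
    rw [mem_union, mem_range, mem_filter]
    by_cases hs : N < 2100 + 7 * H
    · exact Or.inl hs
    · exact Or.inr ⟨hN.1, hN.2.1, by omega, hN.2.2⟩
  have hpos3 : 0 ≤ Φ ^ 3 * (M * (Real.log H / Real.log Y) ^ 3) := by positivity
  have hsum : ((((Ioc Z (Z + Y')).filter
      (fun N : ℕ => N % q = a % q ∧ 2100 + 7 * H ≤ N ∧ N ≤ ff N + H)).card : ℕ) : ℝ) ≤
      24 * C3 * C4 ^ 3 * (Φ ^ 3 * (Y * (Real.log H / Real.log Y) ^ 3)) := by
    have h1 := card_eq_sum_card_fiberwise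
      (s := (Ioc Z (Z + Y')).filter (fun N : ℕ => N % q = a % q ∧ 2100 + 7 * H ≤ N ∧ N ≤ ff N + H))
      (t := (range (A * q)).filter (fun r => r % q = a % q)) (f := fun N => N % (A * q)) (by
        intro N hN
        rw [mem_coe, mem_filter] at hN
        rw [mem_coe, mem_filter, mem_range]
        refine ⟨Nat.mod_lt N hBpos, ?_⟩
        rw [Nat.mod_mod_of_dvd N (Dvd.intro_left A rfl)]
        exact hN.2.1)
    rw [h1]
    push_cast
    calc ∑ r ∈ (range (A * q)).filter (fun r => r % q = a % q), ((((((Ioc Z (Z + Y')).filter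
          (fun N : ℕ => N % q = a % q ∧ 2100 + 7 * H ≤ N ∧ N ≤ ff N + H)).filter
          (fun N => N % (A * q) = r)).card : ℕ)) : ℝ)
        ≤ ∑ r ∈ (range (A * q)).filter (fun r => r % q = a % q),
            8 * C3 * C4 ^ 3 * (Φ ^ 3 * (M * (Real.log H / Real.log Y) ^ 3)) := by
          apply sum_le_sum
          intro r _
          refine le_trans ?_ (hclass r)
          rw [Nat.cast_le]
          apply card_le_card
          intro N hN
          rw [mem_filter, mem_filter] at hN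
          rw [mem_filter]
          exact ⟨hN.1.1, hN.1.2.2, hN.2⟩
      _ ≤ A * (8 * C3 * C4 ^ 3 * (Φ ^ 3 * (M * (Real.log H / Real.log Y) ^ 3))) := by
          rw [sum_const, nsmul_eq_mul]
          apply mul_le_mul_of_nonneg_right _ (by positivity)
          exact_mod_cast card_classes A q a hq
      _ = 8 * C3 * C4 ^ 3 * (Φ ^ 3 * ((A * M) * (Real.log H / Real.log Y) ^ 3)) := by
          ring
      _ ≤ 8 * C3 * C4 ^ 3 * (Φ ^ 3 * ((3 * Y) * (Real.log H / Real.log Y) ^ 3)) := by gcongr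
      _ = _ := by ring
  have hcard := (card_le_card hsub).trans (card_union_le _ _)
  rw [card_range] at hcard
  have hcard' : (((Ioc Z (Z + Y')).filter (fun N : ℕ => N % q = a % q ∧ N ≤ ff N + H)).card : ℝ) ≤ (2100 + 7 * H : ℝ) +
      ((((Ioc Z (Z + Y')).filter (fun N : ℕ => N % q = a % q ∧ 2100 + 7 * H ≤ N ∧ N ≤ ff N + H)).card : ℕ) : ℝ) := by
    exact_mod_cast hcard
  have hsmall : (2100 + 7 * H : ℝ) ≤ 2108 * 256 * 4 * (Y * (Real.log H / Real.log Y) ^ 3) := by
    have h1 : (2100 + 7 * H : ℝ) ≤ 2108 * Real.log Y := by nlinarith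
    have h2 : Real.log Y ≤ 4 * Y ^ (1 / 4 : ℝ) := by
      have h2 := Real.log_le_rpow_div (x := Y) hY0.le (ε := 1 / 4) (by norm_num)
      have e : Y ^ (1 / 4 : ℝ) / (1 / 4) = 4 * Y ^ (1 / 4 : ℝ) := by ring
      rw [e] at h2
      exact h2
    have h4 : Real.log Y ^ 4 ≤ 256 * Y := by
      calc Real.log Y ^ 4 ≤ (4 * Y ^ (1 / 4 : ℝ)) ^ 4 := pow_le_pow_left₀ hlogY.le h2 4
        _ = 256 * (Y ^ (1 / 4 : ℝ)) ^ 4 := by ring
        _ = 256 * Y := by
          rw [← Real.rpow_natCast, ← Real.rpow_mul hY0.le]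
          norm_num
    have h5 : 1 ≤ 4 * Real.log H ^ 3 := by
      have h6 : (0.6931471803 : ℝ) ≤ Real.log H := Real.log_two_gt_d9.le.trans (Real.log_le_log (by norm_num) hH2)
      have h7 := pow_le_pow_left₀ (by norm_num) h6 3
      norm_num at h7 ⊢
      linarith
    rw [div_pow, ← mul_div_assoc, ← mul_div_assoc, le_div_iff₀ (by positivity)]
    calc (2100 + 7 * H : ℝ) * Real.log Y ^ 3 ≤ 2108 * Real.log Y * Real.log Y ^ 3 := by gcongr
      _ = 2108 * Real.log Y ^ 4 := by ring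
      _ ≤ 2108 * (256 * Y) := by gcongr
      _ = 2108 * 256 * Y * 1 := by ring
      _ ≤ 2108 * 256 * Y * (4 * Real.log H ^ 3) := by gcongr
      _ = 2108 * 256 * 4 * (Y * Real.log H ^ 3) := by ring
  have hsmall' : (2100 + 7 * H : ℝ) ≤ 2108 * 256 * 4 * (Φ ^ 3 * (Y * (Real.log H / Real.log Y) ^ 3)) := by
    refine hsmall.trans ?_
    have h1 : 0 ≤ Y * (Real.log H / Real.log Y) ^ 3 := by positivity
    nlinarith
  calc (((Ioc Z (Z + Y')).filter (fun N : ℕ => N % q = a % q ∧ N ≤ ff N + H)).card : ℝ)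
      ≤ 2108 * 256 * 4 * (Φ ^ 3 * (Y * (Real.log H / Real.log Y) ^ 3)) +
        24 * C3 * C4 ^ 3 * (Φ ^ 3 * (Y * (Real.log H / Real.log Y) ^ 3)) := by linarith
    _ = (24 * C3 * C4 ^ 3 + 2108 * 256 * 4) * (Φ ^ 3 * (Y * (Real.log H / Real.log Y) ^ 3)) := by ring

end Pool.Agent.U289.GR
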