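import Mathlib
import Pool.Agent.R105.GD.Tri2

/-! The gcd recursion for prime triples: the loss, late jumps, periodicity (helper289). -/

set_option autoImplicit false

namespace Pool.Agent.U289.GR

open Finset Pool.Agent.R105.GD Pool.Agent.Results.MP_3f8e47_nt.LongLife

/-- the loss of the recursion up to the time `n`: the sum of the `gcd - 1` -/
noncomputable def loss (N n : ℕ) : ℤ := (N : ℤ) - 5 - n - aa N n

/-- the subtracted greatest common divisor at the time `n` -/
noncomputable def gg (N n : ℕ) : ℕ := Int.gcd (aa N (n - 1)) ((n + b n : ℕ) : ℤ)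

lemma gg_pos (N n : ℕ) (hn : 2 ≤ n) : 1 ≤ gg N n := by
  rw [Nat.one_le_iff_ne_zero, gg]
  intro h0
  rw [Int.gcd_eq_zero_iff] at h0
  omega

lemma loss_one (N : ℕ) : loss N 1 = 0 := by
  unfold loss
  rw [aa_one]
  push_cast
  ring

lemma loss_succ (N n : ℕ) (hn : 2 ≤ n) : loss N n = loss N (n - 1) + ((gg N n : ℤ) - 1) := by
  unfold loss gg
  rw [aa_rec N n hn]
  have : ((n - 1 : ℕ) : ℤ) = (n : ℤ) - 1 := by omega
  rw [this]
  ring

lemma loss_mono (N m n : ℕ) (hm : 1 ≤ m) (hmn : m ≤ n) : loss N m ≤ loss N n := by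
  induction n, hmn using Nat.le_induction with
  | base => exact le_rfl
  | succ n hn ih =>
    have h1 := loss_succ N (n + 1) (by omega)
    rw [Nat.add_sub_cancel] at h1
    have h2 := gg_pos N (n + 1) (by omega)
    omega

lemma loss_nonneg (N n : ℕ) (hn : 1 ≤ n) : 0 ≤ loss N n := by
  rw [← loss_one N]
  exact loss_mono N 1 n le_rfl hn

/-- if there is no jump between `m` and `n`, the loss is constant -/
lemma loss_const (N m n : ℕ) (hm : 1 ≤ m) (hmn : m ≤ n) (h : ∀ k, m < k → k ≤ n → gg N k = 1) :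
    loss N n = loss N m := by
  induction n, hmn using Nat.le_induction with
  | base => rfl
  | succ n hn ih =>
    have h1 := loss_succ N (n + 1) (by omega)
    rw [Nat.add_sub_cancel] at h1
    have h2 := h (n + 1) (by omega) le_rfl
    rw [h1, h2, ih fun k hk1 hk2 => h k hk1 (by omega)]
    push_cast
    ring

/-- **a jump at the time `n` forces a loss of at least `(n - 4) / 6`** -/
theorem late_jump (N n : ℕ) (hn : 2 ≤ n) (hg : gg N n ≠ 1) : (n : ℤ) ≤ 6 * loss N n + 4 := by
  induction n using Nat.strong_induction_on with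
  | _ n ih =>
    obtain ⟨p, hp, hpg⟩ := Nat.exists_prime_and_dvd hg
    have hg1 := gg_pos N n hn
    have hg2 : p ≤ gg N n := Nat.le_of_dvd hg1 hpg
    have hp2 := hp.two_le
    have hs := loss_succ N n hn
    have h0 := loss_nonneg N (n - 1) (by omega)
    have hpa : (p : ℤ) ∣ aa N (n - 1) :=
      (Int.natCast_dvd_natCast.2 hpg).trans (Int.gcd_dvd_left ..)
    have hpb : (p : ℤ) ∣ ((n + b n : ℕ) : ℤ) :=
      (Int.natCast_dvd_natCast.2 hpg).trans (Int.gcd_dvd_right ..)
    by_cases hc : n ≤ 3 * p + 1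
    · omega
    · push Not at hc
      by_contra hcon
      push Not at hcon
      have hno : ∀ k, n - 3 * p ≤ k → k < n → gg N k = 1 := by
        intro k hk1 hk2
        by_contra hk
        have h1 := ih k hk2 (by omega) hk
        have h2 := loss_mono N k (n - 1) (by omega) (by omega)
        omega
      have hconst : loss N (n - 1) = loss N (n - 3 * p - 1) :=
        loss_const N (n - 3 * p - 1) (n - 1) (by omega) (by omega)
          fun k hk1 hk2 => hno k (by omega) (by omega)
      have h1 := hno (n - 3 * p) le_rfl (by omega)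
      have hd1 : (p : ℤ) ∣ aa N (n - 3 * p - 1) := by
        have e : aa N (n - 3 * p - 1) = aa N (n - 1) + (p : ℤ) * 3 := by
          unfold loss at hconst
          have e1 : ((n - 1 : ℕ) : ℤ) = (n : ℤ) - 1 := by omega
          have e2 : ((n - 3 * p - 1 : ℕ) : ℤ) = (n : ℤ) - 3 * p - 1 := by omega
          rw [e1, e2] at hconst
          linarith
        rw [e]
        exact dvd_add hpa (Dvd.intro _ rfl)
      have hbb : b n = b (n - 3 * p) := by
        have := b_add (n - 3 * p) p
        rw [← this]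
        congr 1
        omega
      have hd2 : (p : ℤ) ∣ ((n - 3 * p + b (n - 3 * p) : ℕ) : ℤ) := by
        have e : ((n + b n : ℕ) : ℤ) = ((n - 3 * p + b (n - 3 * p) : ℕ) : ℤ) + (p : ℤ) * 3 := by
          rw [hbb]
          push_cast
          have e2 : ((n - 3 * p : ℕ) : ℤ) = (n : ℤ) - 3 * p := by omega
          rw [e2]
          ring
        rw [e] at hpb
        exact (dvd_add_left (Dvd.intro _ rfl)).1 hpb
      have hd3 : p ∣ gg N (n - 3 * p) := by
        unfold gg
        exact Int.natCast_dvd_natCast.1 (Int.dvd_coe_gcd hd1 hd2)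
      rw [h1] at hd3
      have := Nat.le_of_dvd one_pos hd3
      omega

lemma gcd_congr {a a' m : ℤ} (h : m ∣ a - a') : Int.gcd a m = Int.gcd a' m := by
  apply Nat.dvd_antisymm
  · apply Int.natCast_dvd_natCast.1
    apply Int.dvd_coe_gcd
    · have h1 : ((Int.gcd a m : ℕ) : ℤ) ∣ a := Int.gcd_dvd_left ..
      have h2 : ((Int.gcd a m : ℕ) : ℤ) ∣ m := Int.gcd_dvd_right ..
      have h3 := dvd_sub h1 (h2.trans h)
      rwa [sub_sub_cancel] at h3
    · exact Int.gcd_dvd_right ..
  · apply Int.natCast_dvd_natCast.1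
    apply Int.dvd_coe_gcd
    · have h1 : ((Int.gcd a' m : ℕ) : ℤ) ∣ a' := Int.gcd_dvd_left ..
      have h2 : ((Int.gcd a' m : ℕ) : ℤ) ∣ m := Int.gcd_dvd_right ..
      have h3 := dvd_add (h2.trans h) h1
      rwa [sub_add_cancel] at h3
    · exact Int.gcd_dvd_right ..

/-- **periodicity** of the loss up to the time `n` -/
theorem loss_period (A N N' n : ℕ) (hn : 1 ≤ n) (hA : ∀ k, 2 ≤ k → k ≤ n → (k + b k) ∣ A)
    (h : (A : ℤ) ∣ (N : ℤ) - N') : loss N n = loss N' n := by
  induction n, hn using Nat.le_induction with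
  | base => rw [loss_one, loss_one]
  | succ n hn ih =>
    have h1 := ih fun k hk1 hk2 => hA k hk1 (by omega)
    rw [loss_succ N (n + 1) (by omega), loss_succ N' (n + 1) (by omega), Nat.add_sub_cancel, h1]
    have h2 : gg N (n + 1) = gg N' (n + 1) := by
      unfold gg
      rw [Nat.add_sub_cancel]
      apply gcd_congr
      have e : aa N n - aa N' n = (N : ℤ) - N' := by
        unfold loss at h1
        linarith
      rw [e]
      exact (Int.natCast_dvd_natCast.2 (hA (n + 1) (by omega) le_rfl)).trans h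
    rw [h2]

/-- if `N - f(N) ≤ H` then `f(N) = N - 5 - loss N (6 H)`, and `f(N) + 1`, `f(N) + 3`, `f(N) + 7` are prime -/
theorem zero_of_small (N H : ℕ) (hH : 1 ≤ H) (hN : 2100 + 7 * H ≤ N) (h : N ≤ ff N + H) :
    (ff N : ℤ) = N - 5 - loss N (6 * H) ∧
    Nat.Prime (ff N + 1) ∧ Nat.Prime (ff N + 3) ∧ Nat.Prime (ff N + 7) := by
  have hl := ff_isLeast N (by omega)
  have h1 : loss N (ff N) = N - 5 - ff N := by
    unfold loss
    rw [hl.1.2]
    ring
  have h2 : loss N (ff N) = loss N (6 * H) := by
    apply loss_const N (6 * H) (ff N) (by omega) (by omega)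
    intro k hk1 hk2
    by_contra hk
    have h3 := late_jump N k (by omega) hk
    have h4 := loss_mono N k (ff N) (by omega) hk2
    omega
  refine ⟨by omega, ff_primes N (by omega) (by omega)⟩

end Pool.Agent.U289.GR
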